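import Pool.Agent.H37.CA.Targets
import Pool.Agent.H37.CV.OR

/-!
# The Artin `L`-function of an induced character; fixed fields (row ALH)
-/

set_option autoImplicit false

open NumberField Complex Filter Topology

namespace Pool.Agent.H19.CA

open Pool.Agent.H37.CA Pool.Agent.H37.CV Pool.Agent.H28.RC Pool.Agent.H25 Pool.Agent.H25.HK

section

variable {E : Type} [Field E] [NumberField E]

omit [NumberField E] in
lemma sg_one (hE : IsTotallyComplex E) (S : Finset (RP E)) (x : E) : sg E S x = 1 := by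
  have h : S = ∅ := by
    refine Finset.eq_empty_of_forall_notMem fun v _ => ?_
    have h1 := hE.isComplex v.1
    exact (InfinitePlace.not_isComplex_iff_isReal.2 v.2) h1
  rw [h, sg, Finset.prod_empty]

/-- A ray class character of a totally complex field is constant on the classes. -/
lemma psi_congr (hE : IsTotallyComplex E) (χ : RCC E) (a b : 𝓞 E) (ha : a ≠ 0) (hb : b ≠ 0)
    (hbf : Ideal.span {b} ⊔ χ.f = ⊤) (hab : a - b ∈ χ.f) :
    χ.ψ (Ideal.span {a}) = χ.ψ (Ideal.span {b}) := by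
  -- an inverse of `b`
  obtain ⟨c, hc0, hc⟩ : ∃ c : 𝓞 E, c ≠ 0 ∧ b * c - 1 ∈ χ.f := by
    have h1 : (1 : 𝓞 E) ∈ Ideal.span {b} ⊔ χ.f := by rw [hbf]; trivial
    obtain ⟨y, hy, z, hz, hyz⟩ := Submodule.mem_sup.1 h1
    obtain ⟨c, rfl⟩ := Ideal.mem_span_singleton'.1 hy
    by_cases hc : c = 0
    · have h2 : (1 : 𝓞 E) ∈ χ.f := by
        rw [hc, zero_mul, zero_add] at hyz
        rwa [← hyz]
      have h3 : χ.f = ⊤ := (Ideal.eq_top_iff_one _).2 h2
      exact ⟨1, one_ne_zero, by rw [h3]; trivial⟩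
    · refine ⟨c, hc, ?_⟩
      have h2 : b * c - 1 = -z := by rw [← hyz]; ring
      rw [h2]
      exact χ.f.neg_mem hz
  have hac : a * c - 1 ∈ χ.f := by
    have h2 : a * c - 1 = (a - b) * c + (b * c - 1) := by ring
    rw [h2]
    exact χ.f.add_mem (χ.f.mul_mem_right c hab) hc
  have h1 := χ.princ (a * c) (mul_ne_zero ha hc0) hac
  have h2 := χ.princ (b * c) (mul_ne_zero hb hc0) hc
  rw [sg_one hE, ← Ideal.span_singleton_mul_span_singleton, χ.map_mul] at h1 h2
  have h3 : χ.ψ (Ideal.span {c}) ≠ 0 := by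
    intro h
    rw [h, mul_zero] at h1
    exact zero_ne_one h1
  exact mul_right_cancel₀ h3 (h1.trans h2.symm)

/-- The values of a ray class character of a totally complex field are roots of unity. -/
lemma val_root (hE : IsTotallyComplex E) (χ : RCC E) :
    ∃ m : ℕ, 1 ≤ m ∧ ∀ I, χ.ψ I = 0 ∨ χ.ψ I ^ m = 1 := by
  obtain ⟨e, he, h⟩ := exists_pow χ.f χ.f χ.f_ne le_rfl
  refine ⟨e, he, fun I => ?_⟩
  by_cases hI : I = ⊥
  · left; rw [hI, χ.map_bot]
  by_cases hIf : I ⊔ χ.f = ⊤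
  · right
    obtain ⟨a, b, ha, hb, _, hbf, hab, hI2⟩ := h I hI hIf
    have h1 := congrArg χ.ψ hI2
    rw [χ.map_mul, χ.map_mul, χ.map_one, mul_one, psi_congr hE χ a b ha hb hbf hab] at h1
    have h2 : χ.ψ (Ideal.span {b}) ≠ 0 := by
      intro h0
      have h3 := χ.norm_one (Ideal.span {b}) (by rwa [Ne, Ideal.span_singleton_eq_bot]) hbf
      rw [h0, norm_zero] at h3
      exact zero_ne_one h3
    have h3 : χ.ψ (I ^ e) = 1 := by
      have h4 : χ.ψ (Ideal.span {b}) * χ.ψ (I ^ e) = χ.ψ (Ideal.span {b}) * 1 := by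
        rw [h1, mul_one]
      exact mul_left_cancel₀ h2 h4
    have h5 : ∀ n : ℕ, χ.ψ (I ^ n) = χ.ψ I ^ n := by
      intro n
      induction n with
      | zero => rw [pow_zero, pow_zero, Ideal.one_eq_top, χ.map_one]
      | succ n ih => rw [pow_succ, pow_succ, χ.map_mul, ih]
    rw [← h5]
    exact h3
  · left; exact χ.eq_zero I hIf

end

theorem pf_ALH (hEUP : T_EUP) (hRC2 : T_RC2) (hFNR : T_FNR) (hTR : T_TR) : T_ALH := by
  intro L _ _ _ H lam χ B hE hχ D V _ _ _ ρ hρ s hs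
  obtain ⟨m, hm1, hm2⟩ := val_root hE χ
  obtain ⟨B1, hB1⟩ := hRC2 L H lam χ B hχ
  obtain ⟨B0, hB0⟩ := hFNR (D.rep V ρ)
  let C : Cmp (D.rep V ρ) :=
    { N := 1
      H := fun _ => H
      χ := fun _ => χ
      n := fun _ => 1
      B := B0 ∪ B1
      m := m
      m_pos := hm1
      val := fun _ I => hm2 I
      good := by
        intro p hp k hk
        rw [Finset.mem_union, not_or] at hp
        have hIn : (D.rep V ρ).In p = ⊥ := hB0 p hp.1
        have htr : LinearMap.trace ℂ (D.rep V ρ).V ((D.rep V ρ).fr p ^ k) =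
            LinearMap.trace ℂ (D.rep V ρ).V ((D.rep V ρ).rho ((D.rep V ρ).Fr p ^ k)) := by
          rw [hTR (D.rep V ρ) p k hk, hIn,
            finsum_eq_single _ (1 : (⊥ : Subgroup ((D.rep V ρ).K ≃ₐ[ℚ] (D.rep V ρ).K)))
            (fun x hx => absurd (Subsingleton.elim x 1) hx)]
          simp
        rw [htr, Fin.sum_univ_one]
        have h1 : LinearMap.trace ℂ (D.rep V ρ).V ((D.rep V ρ).rho ((D.rep V ρ).Fr p ^ k)) =
            indc H lam (D.Fr p ^ k) := hρ (D.Fr p ^ k)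
        rw [h1, ← hB1 p p.2 hp.2 (D.P p) (D.P_prime p) (D.P_mem p) (D.Fr p) (D.Fr_spec p) k hk]
        rw [Int.cast_one, one_mul]
        rfl }
  have h := hEUP (D.rep V ρ) C s hs
  have h2 : (∏ i, Lc (C.χ i) s ^ C.n i) = Lc χ s := by
    have h3 : (∏ i : Fin 1, Lc χ s ^ (1 : ℤ)) = Lc χ s := by
      rw [Fin.prod_univ_one, zpow_one]
    exact h3
  rw [h2] at h
  exact h

end Pool.Agent.H19.CA
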