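import Pool.Agent.H9.CA.TarQ

/-! QA: the models `N_β`. -/

open Ordinal Order Set
open scoped ZFSet

namespace CAA

open SF

theorem pf_QA (hM1 : F_M1) (hDO : T_DO) (hDP : T_DP) : T_QA := by
  intro D G β hD hG hβ
  obtain ⟨hc, hz, ho, hs, -, hi, -, -⟩ := hM1 D G β hD hG hβ
  have hvk : IsVk (· ∈ D.B G β) D.κ (D.N G β) := by
    intro x
    unfold Dat.N
    rw [ZFSet.mem_sep]
  obtain ⟨N', hN', hV', -⟩ := hDO (· ∈ D.B G β) D.κ hz hi
  have e : N' = D.N G β := by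
    ext x
    rw [hV' x, hvk x]
  rw [e] at hN'
  obtain ⟨h1, h2⟩ := hDP (· ∈ D.B G β) D.κ (D.N G β) hz hi hvk
  refine ⟨hvk, hN', h1, h2, ?_, ?_⟩
  · intro x hx
    obtain ⟨h3, h4⟩ := (hD.grd.vk x).1 hx
    exact (hvk x).2 ⟨hs x h3, h4⟩
  · refine hc.mono fun x hx => ?_
    exact ((hvk x).1 hx).1

end CAA
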