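import Pool.Agent.H9.CA.TarQ

/-! QC: `C(aa)` of `N_β` is contained in `N_(β+1)`. -/

open Ordinal Order Set
open scoped ZFSet

namespace CAA

open SF

/-- positions of the values of the first-order variables -/
def qcr (n : ℕ) : ℕ → ℕ
  | 0 => 1
  | j + 1 => if j < n then j + 4 else 1

/-- the arguments of the satisfaction relation -/
noncomputable def qcF (n : ℕ) (i : ℕ) : (V → Prop) → (ℕ → V) → V :=
  if i = 0 then fun _ w => w 0
  else if i = 1 then fun _ w => La (· ∈ w 0) (w 3).rank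
  else if i % 2 = 0 then fun _ w => w (qcr n (i / 2 - 1))
  else fun _ _ => ∅

theorem tm_qcF (hDW : T_DW) (n i : ℕ) : Tm ZFm (qcF n i) := by
  unfold qcF
  split_ifs
  · exact Tm.var 0
  · exact Tm.at2 (F := fun _ x y => La (· ∈ x) y.rank) hDW (Tm.var 0) (Tm.var 3)
  · exact Tm.var _
  · exact Tm.empty

theorem qcF_zero (n : ℕ) (M : V → Prop) (w : ℕ → V) : qcF n 0 M w = w 0 := rfl

theorem qcF_one (n : ℕ) (M : V → Prop) (w : ℕ → V) :
    qcF n 1 M w = La (· ∈ w 0) (w 3).rank := rfl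

theorem qcF_even (n i : ℕ) (M : V → Prop) (w : ℕ → V) : qcF n (2 * i + 2) M w = w (qcr n i) := by
  unfold qcF
  rw [if_neg (by omega), if_neg (by omega), if_pos (by omega)]
  show w (qcr n ((2 * i + 2) / 2 - 1)) = _
  rw [show (2 * i + 2) / 2 - 1 = i by omega]

theorem qcF_odd (n i : ℕ) (M : V → Prop) (w : ℕ → V) : qcF n (2 * i + 3) M w = ∅ := by
  unfold qcF
  rw [if_neg (by omega), if_neg (by omega), if_neg (by omega)]

/-- satisfaction over the level with index `w 3` of the hierarchy of `w 0`, of `w 1` and the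
parameters `w 4, w 5, ...` -/
noncomputable def qcS (φ : AF) (n : ℕ) (w : ℕ → V) : Prop :=
  AaSat (· ∈ w 0) (La (· ∈ w 0) (w 3).rank) φ (fun i => w (qcr n i)) fun _ => ∅

theorem dfb_qcS (hDV : T_DV) (hDW : T_DW) (φ : AF) (n : ℕ) : Dfb ZFm fun _ w => qcS φ n w := by
  refine ((hDV φ).comp (qcF n) (tm_qcF hDW n)).congr fun M k v hv => ?_
  simp only [qcF_zero, qcF_one, qcF_even, qcF_odd]
  rfl

/-- the relation for homogeneity -/
def qcR (φ : AF) (n : ℕ) (M : V → Prop) (w : ℕ → V) : Prop :=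
  ∃ N', M N' ∧ (∀ x, M x → (x ∈ N' ↔ rkS x ∈ w 1)) ∧ w 0 ∈ La (· ∈ N') (w 2).rank ∧
    qcS φ n (cons N' w)

theorem dfb_qcR (hDV : T_DV) (hDW : T_DW) (φ : AF) (n : ℕ) : Dfb ZFm (qcR φ n) := by
  have h1 : Dfb ZFm (fun M v => ∀ x, M x → (x ∈ v 0 ↔ rkS x ∈ v 2)) :=
    (Dfb.all (R := fun _ v => v 0 ∈ v 1 ↔ rkS (v 0) ∈ v 3)
      ((Dfb.mem (Tm.var 0) (Tm.var 1)).iff (Dfb.mem (Tm.rkS (Tm.var 0)) (Tm.var 3)))).congr
      fun M k v hv => Iff.rfl
  have h2 : Dfb ZFm (fun _ v => v 1 ∈ La (· ∈ v 0) (v 3).rank) :=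
    Dfb.mem (Tm.var 1) (Tm.at2 (F := fun _ x y => La (· ∈ x) y.rank) hDW (Tm.var 0) (Tm.var 3))
  exact (Dfb.ex (R := fun M v => (∀ x, M x → (x ∈ v 0 ↔ rkS x ∈ v 2)) ∧
    v 1 ∈ La (· ∈ v 0) (v 3).rank ∧ qcS φ n v) (h1.and (h2.and (dfb_qcS hDV hDW φ n)))).congr
    fun M k v hv => Iff.rfl

theorem pf_QC (hM1 : F_M1) (hM2 : F_M2) (hM5 : F_M5) (hQA : T_QA) (hQB : T_QB) (hDV : T_DV)
    (hDW : T_DW) (hDX : T_DX) : T_QC := by
  intro D G β hD hG hβ'
  have hβ : β < D.κ := lt_trans (lt_succ β) hβ'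
  obtain ⟨-, hz, ho, hs, -, hi, -, -⟩ := hM1 D G β hD hG hβ
  obtain ⟨-, hz', ho', hs', -, -, -, -⟩ := hM1 D G (succ β) hD hG hβ'
  have hsub : D.B G (succ β) ⊆ D.B G β := hM2 D G β (succ β) hD hG (le_succ β) hβ'
  obtain ⟨hvk, hNB, -, -, -, -⟩ := hQA D G β hD hG hβ
  obtain ⟨hvk', hNB', -, -, -, -⟩ := hQA D G (succ β) hD hG hβ'
  obtain ⟨hLN, hLs, -, -, -⟩ := hQB (· ∈ D.B G β) D.κ (D.N G β) hz hi hvk
  obtain ⟨hmono, htr, -, -, -, hmem⟩ := hDX (· ∈ D.N G β)
  have hκθ : D.κ < D.θ := (ho D.κ).1 hi.mem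
  -- everything in the hierarchy has rank less than `κ`
  have hrk : ∀ ξ ≤ D.κ, ∀ x ∈ La (· ∈ D.N G β) ξ, x.rank < D.κ := by
    intro ξ hξ x hx
    exact ((hvk x).1 (hLs (hmono ξ D.κ hξ hx))).2
  have key : ∀ ξ ≤ D.κ, ∀ y ∈ La (· ∈ D.N G β) ξ, y ∈ D.N G (succ β) := by
    intro ξ
    induction ξ using WellFoundedLT.induction with
    | ind ξ ih =>
      intro hξ y hy
      refine (hvk' y).2 ⟨?_, hrk ξ hξ y hy⟩
      obtain ⟨η, hη, hyD⟩ := (hmem ξ y).1 hy
      have hηκ : η < D.κ := lt_of_lt_of_le hη hξ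
      have ihη := ih η hη hηκ.le
      unfold DefA at hyD
      obtain ⟨-, φ, l, hl, rfl⟩ := ZFSet.mem_sep.1 hyD
      have hB' : ∀ x ∈ La (· ∈ D.N G β) η, x ∈ D.B G (succ β) := fun x hx =>
        ((hvk' x).1 (ihη x hx)).1
      have he : (∅ : V) ∈ D.B G (succ β) := hz'.toZFm.mempty
      have hv : ∀ i, (cons D.κ.toZFSet (cons η.toZFSet fun j => l.getD j ∅)) i ∈
          D.B G (succ β) := by
        intro i
        match i with
        | 0 => exact (ho' D.κ).2 hκθ
        | 1 => exact (ho' η).2 (hηκ.trans hκθ)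
        | j + 2 =>
          show l.getD j ∅ ∈ _
          by_cases hj : j < l.length
          · rw [List.getD_eq_getElem _ _ hj]
            exact hB' _ (hl _ (List.getElem_mem hj))
          · rw [List.getD_eq_default _ _ (by omega)]
            exact he
      have h5 := hM5 D G β hD hG hβ (qcR φ l.length) (dfb_qcR hDV hDW φ l.length)
        (D.N G (succ β)) (cons D.κ.toZFSet (cons η.toZFSet fun j => l.getD j ∅)) hNB' hv
      have e : ((D.N G (succ β)).sep fun x => qcR φ l.length (· ∈ D.B G β)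
          (cons x (cons D.κ.toZFSet (cons η.toZFSet fun j => l.getD j ∅)))) =
          (La (· ∈ D.N G β) η).sep fun z => AaSat (· ∈ D.N G β) (La (· ∈ D.N G β) η) φ
            (cons z fun i => l.getD i z) fun _ => ∅ := by
        have hass : ∀ z N' : V, (fun i => cons N' (cons z (cons D.κ.toZFSet (cons η.toZFSet
            fun j => l.getD j ∅))) (qcr l.length i)) = cons z fun i => l.getD i z := by
          intro z N'
          funext i
          cases i with
          | zero => rfl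
          | succ j =>
            show cons N' (cons z (cons D.κ.toZFSet (cons η.toZFSet
              fun j => l.getD j ∅))) (if j < l.length then j + 4 else 1) = l.getD j z
            by_cases hj : j < l.length
            · rw [if_pos hj]
              show l.getD j ∅ = _
              rw [List.getD_eq_getElem _ _ hj, List.getD_eq_getElem _ _ hj]
            · rw [if_neg hj, List.getD_eq_default _ _ (by omega)]
              rfl
        have hN'eq : ∀ N' ∈ D.B G β, (∀ x ∈ D.B G β, (x ∈ N' ↔ rkS x ∈ D.κ.toZFSet)) →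
            N' = D.N G β := by
          intro N' hN' h
          ext x
          constructor
          · intro hx
            have hxB := hz.toZFm.trans _ hN' x hx
            exact (hvk x).2 ⟨hxB, Ordinal.toZFSet_mem_toZFSet_iff.1 ((h x hxB).1 hx)⟩
          · intro hx
            obtain ⟨h1, h2⟩ := (hvk x).1 hx
            exact (h x h1).2 (Ordinal.toZFSet_mem_toZFSet_iff.2 h2)
        have hrη : (η.toZFSet : V).rank = η := by simp
        ext z
        rw [ZFSet.mem_sep, ZFSet.mem_sep]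
        constructor
        · rintro ⟨-, N', hN', h1, h2, h3⟩
          have e1 : N' = D.N G β := hN'eq N' hN' h1
          subst e1
          have h2' : z ∈ La (· ∈ D.N G β) (η.toZFSet : V).rank := h2
          rw [hrη] at h2'
          have h3' : AaSat (· ∈ D.N G β) (La (· ∈ D.N G β) (η.toZFSet : V).rank) φ
            (fun i => cons (D.N G β) (cons z (cons D.κ.toZFSet (cons η.toZFSet
              fun j => l.getD j ∅))) (qcr l.length i)) fun _ => ∅ := h3
          rw [hrη, hass] at h3'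
          exact ⟨h2', h3'⟩
        · rintro ⟨h1, h2⟩
          refine ⟨ihη z h1, D.N G β, hNB, ?_, ?_, ?_⟩
          · intro x hx
            show x ∈ D.N G β ↔ x.rank.toZFSet ∈ D.κ.toZFSet
            rw [hvk x, Ordinal.toZFSet_mem_toZFSet_iff]
            exact ⟨fun h => h.2, fun h => ⟨hx, h⟩⟩
          · show z ∈ La (· ∈ D.N G β) (η.toZFSet : V).rank
            rw [hrη]
            exact h1
          · show AaSat (· ∈ D.N G β) (La (· ∈ D.N G β) (η.toZFSet : V).rank) φ
              (fun i => cons (D.N G β) (cons z (cons D.κ.toZFSet (cons η.toZFSet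
                fun j => l.getD j ∅))) (qcr l.length i)) fun _ => ∅
            rw [hrη, hass]
            exact h2
      rw [e] at h5
      exact h5
  exact fun y hy => key D.κ le_rfl y hy

end CAA
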