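import Pool.Agent.H9.CA.TarQ

/-! QD: clubs and countable sets closed under functions. -/

open Ordinal Order Set
open scoped ZFSet

namespace CAA

open SF

/-- the partial function: the next element of `C` -/
noncomputable def nxt (C : V) : V :=
  imS ((ZFSet.prod (⋃₀ C : ZFSet) C).sep fun t => fst t ∈ snd t ∧
    ∀ y ∈ C, fst t ∈ y → ¬ y ∈ snd t) fun t =>
      ZFSet.pair (nS 0) (ZFSet.pair (ZFSet.pair (fst t) ∅) (snd t))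

theorem tm_nxt : Tm ZFm (fun _ v => nxt (v 0)) := by
  have h1 : Dfb ZFm (fun _ v => fst (v 0) ∈ snd (v 0) ∧ ∀ y ∈ v 1, fst (v 0) ∈ y →
      ¬ y ∈ snd (v 0)) := by
    refine (Dfb.mem (Tm.fst (Tm.var 0)) (Tm.snd (Tm.var 0))).and ?_
    exact (Dfb.ball (R := fun _ v => fst (v 1) ∈ v 0 → ¬ v 0 ∈ snd (v 1)) ktr_zfm (Tm.var 1)
      ((Dfb.mem (Tm.fst (Tm.var 1)) (Tm.var 0)).imp
        (Dfb.mem (Tm.var 0) (Tm.snd (Tm.var 1))).not)).congr fun M k v hv => Iff.rfl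
  exact (Tm.image (g := fun _ u => ZFSet.pair (nS 0) (ZFSet.pair (ZFSet.pair (fst (u 0)) ∅)
    (snd (u 0)))) (Tm.sep h1 (Tm.prod (Tm.sUnion (Tm.var 0)) (Tm.var 0)))
    (Tm.pair (Tm.nS 0) (Tm.pair (Tm.pair (Tm.fst (Tm.var 0)) Tm.empty)
      (Tm.snd (Tm.var 0))))).congr fun M k v hv => rfl

theorem mem_nxt {C z : V} : z ∈ nxt C ↔ ∃ x y, x ∈ (⋃₀ C : ZFSet) ∧ y ∈ C ∧ x ∈ y ∧
    (∀ y' ∈ C, x ∈ y' → ¬ y' ∈ y) ∧ z = ZFSet.pair (nS 0) (ZFSet.pair (lc [x]) y) := by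
  unfold nxt
  rw [mem_imS]
  constructor
  · rintro ⟨t, ht, rfl⟩
    obtain ⟨h1, h2, h3⟩ := ZFSet.mem_sep.1 ht
    obtain ⟨x, hx, y, hy, rfl⟩ := ZFSet.mem_prod.1 h1
    rw [fst_pair, snd_pair] at h2
    rw [fst_pair, snd_pair] at h3
    refine ⟨x, y, hx, hy, h2, h3, ?_⟩
    rw [fst_pair, snd_pair]
    rfl
  · rintro ⟨x, y, hx, hy, h2, h3, rfl⟩
    refine ⟨ZFSet.pair x y, ZFSet.mem_sep.2 ⟨ZFSet.pair_mem_prod.2 ⟨hx, hy⟩, ?_⟩, ?_⟩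
    · rw [fst_pair, snd_pair]
      exact ⟨h2, h3⟩
    · rw [fst_pair, snd_pair]
      rfl

theorem pf_QD (hDY : T_DY) : T_QD := by
  intro N A C μ hN hA hC htA hμA hne hcl
  have hCo : ∀ y ∈ C, ∃ η < μ, y = η.toZFSet := by
    intro y hy
    obtain ⟨η, h1, h2⟩ := Ordinal.mem_toZFSet_iff.1 (hcl.sub hy)
    exact ⟨η, h1, h2.symm⟩
  have hUC : ∀ x ∈ (⋃₀ C : ZFSet), ∃ ξ < μ, x = ξ.toZFSet := by
    intro x hx
    obtain ⟨y, hy, hxy⟩ := ZFSet.mem_sUnion.1 hx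
    obtain ⟨η, h1, rfl⟩ := hCo y hy
    obtain ⟨ξ, h2, h3⟩ := Ordinal.mem_toZFSet_iff.1 hxy
    exact ⟨ξ, h2.trans h1, h3.symm⟩
  have hNn : N (nxt C) := tm_nxt.1 N hN (fun _ => C) (fun _ => hC)
  have hfp : FinP A (nxt C) := by
    constructor
    · intro z hz
      obtain ⟨x, y, hx, hy, -, -, rfl⟩ := mem_nxt.1 hz
      refine ⟨0, [x], y, ?_, hμA (hcl.sub hy), rfl⟩
      intro p hp
      obtain rfl : p = x := by simpa using hp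
      obtain ⟨ξ, h1, rfl⟩ := hUC p hx
      exact hμA (Ordinal.toZFSet_mem_toZFSet_iff.2 h1)
    · intro n l y y' h1 h2
      obtain ⟨x, w, -, hw, hxw, h3, h4⟩ := mem_nxt.1 h1
      obtain ⟨x', w', -, hw', hxw', h3', h4'⟩ := mem_nxt.1 h2
      obtain ⟨-, h5⟩ := ZFSet.pair_inj.1 h4
      obtain ⟨h6, rfl⟩ := ZFSet.pair_inj.1 h5
      obtain ⟨-, h5'⟩ := ZFSet.pair_inj.1 h4'
      obtain ⟨h6', rfl⟩ := ZFSet.pair_inj.1 h5'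
      have h9 : [x] = [x'] := lc_inj (h6.symm.trans h6')
      obtain rfl : x = x' := by simpa using h9
      have h7 := h3 _ hw' hxw'
      have h8 := h3' _ hw hxw
      obtain ⟨η, -, rfl⟩ := hCo y hw
      obtain ⟨η', -, rfl⟩ := hCo y' hw'
      rw [Ordinal.toZFSet_mem_toZFSet_iff] at h7 h8
      rw [le_antisymm (not_lt.1 h7) (not_lt.1 h8)]
  obtain ⟨F, hF, hFF, hcF⟩ := hDY N hN A (nxt C) hA hNn hne hfp
  refine ⟨F, hF, hFF, fun z hz hc δ hδ hδ0 hSp => ?_⟩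
  have hcn := hcF z hz hc
  refine hcl.cl δ hδ hδ0 fun ξ hξ => ?_
  obtain ⟨x, hx, hxm, hξx⟩ := hSp.2 _ (Ordinal.toZFSet_mem_toZFSet_iff.2 hξ)
  obtain ⟨τ, hτ, rfl⟩ := Ordinal.mem_toZFSet_iff.1 hxm
  have hξτ : ξ ≤ τ := by
    rcases hξx with h | h
    · exact (Ordinal.toZFSet_mem_toZFSet_iff.1 h).le
    · exact (Ordinal.toZFSet_injective h).le
  -- the next element of `C`
  obtain ⟨η, ⟨hη1, hη2⟩, hmin⟩ := WellFounded.has_min (wellFounded_lt (α := Ordinal.{0}))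
    {η | τ < η ∧ η.toZFSet ∈ C} (hcl.unb τ hτ)
  have h1 : ZFSet.pair (nS 0) (ZFSet.pair (lc [τ.toZFSet]) η.toZFSet) ∈ nxt C := by
    refine mem_nxt.2 ⟨τ.toZFSet, η.toZFSet, ?_, hη2, Ordinal.toZFSet_mem_toZFSet_iff.2 hη1, ?_, rfl⟩
    · exact ZFSet.mem_sUnion.2 ⟨_, hη2, Ordinal.toZFSet_mem_toZFSet_iff.2 hη1⟩
    · intro y hy hτy hyη
      obtain ⟨ζ, -, rfl⟩ := hCo y hy
      exact hmin ζ ⟨Ordinal.toZFSet_mem_toZFSet_iff.1 hτy, hy⟩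
        (Ordinal.toZFSet_mem_toZFSet_iff.1 hyη)
  have h2 : η.toZFSet ∈ z := hcn 0 [τ.toZFSet] η.toZFSet (by
    intro p hp
    obtain rfl : p = τ.toZFSet := by simpa using hp
    exact hx) h1
  have h3 := hSp.1 _ h2 (hcl.sub hη2)
  exact ⟨η, lt_of_le_of_lt hξτ hη1, Ordinal.toZFSet_mem_toZFSet_iff.1 h3, hη2⟩

end CAA
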